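import Mathlib

/-!
# Greedy colouring of graphs with classes of forest type
-/

set_option autoImplicit false

namespace Pool.Agent.Q227.GM

variable {ι : Type} [DecidableEq ι]

/-- `GreedyRun G S n`: some run of greedy MIS colouring on the subgraph of `G` induced by `S` uses
`n` colours. In every step, while some vertex is uncoloured, a maximum independent set `I` of the
subgraph induced by the set `S` of the uncoloured vertices gets a new colour. -/
inductive GreedyRun (G : SimpleGraph ι) : Finset ι → ℕ → Prop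
  | done : GreedyRun G ∅ 0
  | step {S I : Finset ι} {n : ℕ} : S.Nonempty → I ⊆ S → G.IsIndepSet (I : Set ι) →
      (∀ J ⊆ S, G.IsIndepSet (J : Set ι) → J.card ≤ I.card) → GreedyRun G (S \ I) n →
      GreedyRun G S (n + 1)

/-- A run, as the list of the colour classes. -/
def Run (G : SimpleGraph ι) : Finset ι → List (Finset ι) → Prop
  | S, [] => S = ∅
  | S, I :: l => S.Nonempty ∧ I ⊆ S ∧ G.IsIndepSet (I : Set ι) ∧
      (∀ J ⊆ S, G.IsIndepSet (J : Set ι) → J.card ≤ I.card) ∧ Run G (S \ I) l

theorem exists_run {G : SimpleGraph ι} {S : Finset ι} {n : ℕ} (h : GreedyRun G S n) :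
    ∃ l, l.length = n ∧ Run G S l := by
  induction h with
  | done => exact ⟨[], rfl, rfl⟩
  | @step S I n h1 h2 h3 h4 _ ih =>
    obtain ⟨l, hl, hr⟩ := ih
    exact ⟨I :: l, by simp [hl], h1, h2, h3, h4, hr⟩

/-- What remains after some steps. -/
def rem : Finset ι → List (Finset ι) → Finset ι
  | S, [] => S
  | S, I :: l => rem (S \ I) l

theorem rem_subset : ∀ (S : Finset ι) (l : List (Finset ι)), rem S l ⊆ S
  | S, [] => Finset.Subset.refl _
  | S, I :: l => (rem_subset (S \ I) l).trans Finset.sdiff_subset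

/-- The properties of the steps used for the class `C`. -/
def Ok (G : SimpleGraph ι) (C : Finset ι) (p : Finset ι → Prop) : Finset ι → List (Finset ι) → Prop
  | _, [] => True
  | S, I :: l => I ⊆ S ∧ G.IsIndepSet (I : Set ι) ∧ (p I → (I ∩ C).Nonempty ∧
      ∀ J ⊆ S ∩ C, G.IsIndepSet (J : Set ι) → J.card ≤ (I ∩ C).card + 3) ∧ Ok G C p (S \ I) l

theorem ok_append {G : SimpleGraph ι} {C : Finset ι} {p : Finset ι → Prop} :
    ∀ (S : Finset ι) (l l' : List (Finset ι)), Ok G C p S (l ++ l') →
      Ok G C p S l ∧ Ok G C p (rem S l) l'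
  | S, [], l', h => ⟨trivial, h⟩
  | S, I :: l, l', h => by
    obtain ⟨h1, h2, h3, h4⟩ := h
    have := ok_append (S \ I) l l' h4
    exact ⟨⟨h1, h2, h3, this.1⟩, this.2⟩

theorem countP_le_card {G : SimpleGraph ι} {C : Finset ι} {p : Finset ι → Prop} [DecidablePred p] :
    ∀ (S : Finset ι) (l : List (Finset ι)), Ok G C p S l → l.countP p ≤ (S ∩ C).card
  | S, [], _ => by simp
  | S, I :: l, h => by
    obtain ⟨h1, h2, h3, h4⟩ := h
    have ih := countP_le_card (S \ I) l h4
    have hsub : (S \ I) ∩ C ⊆ S ∩ C := Finset.inter_subset_inter_right Finset.sdiff_subset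
    rw [List.countP_cons]
    by_cases hp : p I
    · obtain ⟨x, hx⟩ := (h3 hp).1
      rw [Finset.mem_inter] at hx
      have : ((S \ I) ∩ C).card < (S ∩ C).card := by
        refine Finset.card_lt_card (Finset.ssubset_iff_subset_ne.2 ⟨hsub, fun heq => ?_⟩)
        have hx' : x ∈ S ∩ C := Finset.mem_inter.2 ⟨h1 hx.1, hx.2⟩
        rw [← heq, Finset.mem_inter, Finset.mem_sdiff] at hx'
        exact hx'.1.2 hx.1
      simp only [hp, decide_true, if_true]
      omega
    · simp only [hp, decide_false]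
      have := Finset.card_le_card hsub
      simp only [Bool.false_eq_true, if_false, add_zero]
      omega

theorem exists_split {β : Type} (p : β → Prop) [DecidablePred p] : ∀ (l : List β) (m : ℕ),
    m ≤ l.countP p → ∃ l₁ l₂, l = l₁ ++ l₂ ∧ l₁.countP p = m
  | l, 0, _ => ⟨[], l, rfl, rfl⟩
  | [], m + 1, h => by simp at h
  | a :: l, m + 1, h => by
    rw [List.countP_cons] at h
    by_cases hp : p a
    · simp only [hp, decide_true, if_true] at h
      obtain ⟨l₁, l₂, h1, h2⟩ := exists_split p l m (by omega)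
      refine ⟨a :: l₁, l₂, by rw [h1, List.cons_append], ?_⟩
      rw [List.countP_cons, h2]
      simp [hp]
    · simp only [hp, decide_false, Bool.false_eq_true, if_false, add_zero] at h
      obtain ⟨l₁, l₂, h1, h2⟩ := exists_split p l (m + 1) h
      refine ⟨a :: l₁, l₂, by rw [h1, List.cons_append], ?_⟩
      rw [List.countP_cons, h2]
      simp [hp]

section

variable {α : Type} [Preorder α] {G : SimpleGraph ι} {C : Finset ι} {f : ι → α}

theorem exists_max {S : Finset ι} {x : ι} (hx : x ∈ S) :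
    ∃ y ∈ S, f x ≤ f y ∧ ∀ z ∈ S, f y ≤ f z → f z ≤ f y := by
  classical
  obtain ⟨b, hb, hm⟩ := (S.image f).exists_le_maximal (Finset.mem_image_of_mem f hx)
  obtain ⟨y, hy, rfl⟩ := Finset.mem_image.1 hm.1
  exact ⟨y, hy, hb, fun z hz h => hm.2 (Finset.mem_image_of_mem f hz) h⟩

/-- Tracking lowest elements below the elements of an independent set, backwards in time. -/
theorem track (p : Finset ι → Prop) [DecidablePred p]
    (hchain : ∀ u v w : α, u ≤ w → v ≤ w → u ≤ v ∨ v ≤ u)
    (hadj : ∀ x ∈ C, ∀ y ∈ C, x ≠ y → (G.Adj x y ↔ f x ≤ f y ∨ f y ≤ f x)) {A : Finset ι}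
    (hAC : A ⊆ C) (hA : G.IsIndepSet (A : Set ι)) : ∀ (l : List (Finset ι)) (S : Finset ι),
    A ⊆ rem S l → Ok G C p S l → ∃ (L : ι → ι) (B : ι → Finset ι),
      (∀ a ∈ A, L a ∈ S ∩ C ∧ f a ≤ f (L a) ∧ (∀ y ∈ S ∩ C, f (L a) ≤ f y → f y ≤ f (L a)) ∧
        B a ⊆ (S \ rem S l) ∩ C ∧ ∀ b ∈ B a, f b ≤ f (L a)) ∧
      l.countP p * A.card ≤ ∑ a ∈ A, (B a).card + 3 * l.countP p
  | [], S, hAS, _ => by
    have h : ∀ a : ι, ∃ y, a ∈ A → y ∈ S ∩ C ∧ f a ≤ f y ∧ ∀ z ∈ S ∩ C, f y ≤ f z → f z ≤ f y := by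
      intro a
      by_cases ha : a ∈ A
      · obtain ⟨y, h1, h2, h3⟩ := exists_max (f := f) (Finset.mem_inter.2 ⟨hAS ha, hAC ha⟩)
        exact ⟨y, fun _ => ⟨h1, h2, h3⟩⟩
      · exact ⟨a, fun h => absurd h ha⟩
    choose L hL using h
    refine ⟨L, fun _ => ∅, fun a ha => ⟨(hL a ha).1, (hL a ha).2.1, (hL a ha).2.2,
      Finset.empty_subset _, by simp⟩, by simp⟩
  | I :: l, S, hAS, hOk => by
    obtain ⟨hIS, hI, hp, hOk'⟩ := hOk
    obtain ⟨L, B, hLB, hcount⟩ := track p hchain hadj hAC hA l (S \ I) hAS hOk'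
    have h : ∀ a : ι, ∃ y, a ∈ A → y ∈ S ∩ C ∧ f (L a) ≤ f y ∧
        ∀ z ∈ S ∩ C, f y ≤ f z → f z ≤ f y := by
      intro a
      by_cases ha : a ∈ A
      · have h0 := (hLB a ha).1
        rw [Finset.mem_inter, Finset.mem_sdiff] at h0
        obtain ⟨y, h1, h2, h3⟩ := exists_max (f := f) (Finset.mem_inter.2 ⟨h0.1.1, h0.2⟩)
        exact ⟨y, fun _ => ⟨h1, h2, h3⟩⟩
      · exact ⟨a, fun h => absurd h ha⟩
    choose L₁ hL₁ using h
    classical
    set D : ι → Finset ι := fun a => (I ∩ C).filter (fun b => f b ≤ f (L₁ a)) with hD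
    have hrem : rem (S \ I) l ⊆ S \ I := rem_subset _ _
    refine ⟨L₁, fun a => B a ∪ D a, fun a ha => ⟨(hL₁ a ha).1, (hLB a ha).2.1.trans
      (hL₁ a ha).2.1, (hL₁ a ha).2.2, ?_, ?_⟩, ?_⟩
    · change B a ∪ D a ⊆ (S \ rem (S \ I) l) ∩ C
      refine Finset.union_subset ?_ ?_
      · intro b hb
        have := (hLB a ha).2.2.2.1 hb
        rw [Finset.mem_inter, Finset.mem_sdiff, Finset.mem_sdiff] at this
        rw [Finset.mem_inter, Finset.mem_sdiff]
        exact ⟨⟨this.1.1.1, this.1.2⟩, this.2⟩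
      · intro b hb
        have hb' := Finset.mem_inter.1 (Finset.mem_filter.1 hb).1
        rw [Finset.mem_inter, Finset.mem_sdiff]
        refine ⟨⟨hIS hb'.1, fun h => ?_⟩, hb'.2⟩
        exact (Finset.mem_sdiff.1 (hrem h)).2 hb'.1
    · intro b hb
      rcases Finset.mem_union.1 hb with h | h
      · exact ((hLB a ha).2.2.2.2 b h).trans (hL₁ a ha).2.1
      · exact (Finset.mem_filter.1 h).2
    · have hcard : ∑ a ∈ A, (B a ∪ D a).card = ∑ a ∈ A, (B a).card + ∑ a ∈ A, (D a).card := by
        rw [← Finset.sum_add_distrib]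
        refine Finset.sum_congr rfl fun a ha => Finset.card_union_of_disjoint ?_
        rw [Finset.disjoint_left]
        intro b h1 h2
        have h3 := (hLB a ha).2.2.2.1 h1
        rw [Finset.mem_inter, Finset.mem_sdiff, Finset.mem_sdiff] at h3
        exact h3.1.1.2 (Finset.mem_inter.1 (Finset.mem_filter.1 h2).1).1
      rw [hcard, List.countP_cons]
      by_cases hpI : p I
      · simp only [hpI, decide_true, if_true]
        -- the exchange
        set Cov := (I ∩ C).filter (fun b => ∃ a ∈ A, f b ≤ f (L₁ a)) with hCov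
        have hCovle : Cov.card ≤ ∑ a ∈ A, (D a).card := by
          refine le_trans (Finset.card_le_card ?_) Finset.card_biUnion_le
          intro b hb
          rw [hCov, Finset.mem_filter] at hb
          obtain ⟨h1, a, ha, h2⟩ := hb
          rw [Finset.mem_biUnion]
          exact ⟨a, ha, Finset.mem_filter.2 ⟨h1, h2⟩⟩
        have hinj : Set.InjOn L₁ (A : Set ι) := by
          intro a ha b hb hab
          by_contra hne
          have h1 := (hLB a ha).2.1.trans (hL₁ a ha).2.1
          have h2 := (hLB b hb).2.1.trans (hL₁ b hb).2.1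
          rw [← hab] at h2
          exact hA ha hb hne ((hadj a (hAC ha) b (hAC hb) hne).2 (hchain _ _ _ h1 h2))
        have hdis : Disjoint ((I ∩ C) \ Cov) (A.image L₁) := by
          rw [Finset.disjoint_left]
          intro b hb hb2
          obtain ⟨a, ha, rfl⟩ := Finset.mem_image.1 hb2
          rw [Finset.mem_sdiff] at hb
          exact hb.2 (Finset.mem_filter.2 ⟨hb.1, a, ha, le_rfl⟩)
        have hJ := (hp hpI).2 (((I ∩ C) \ Cov) ∪ A.image L₁) ?_ ?_
        · have hCs : Cov ⊆ I ∩ C := Finset.filter_subset _ _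
          rw [Finset.card_union_of_disjoint hdis, Finset.card_image_of_injOn hinj,
            Finset.card_sdiff_of_subset hCs] at hJ
          have h1 : Cov.card ≤ (I ∩ C).card := Finset.card_le_card hCs
          have h2 : A.card ≤ Cov.card + 3 := by omega
          rw [add_mul, one_mul]
          omega
        · intro b hb
          rcases Finset.mem_union.1 hb with h | h
          · have := Finset.mem_inter.1 (Finset.mem_sdiff.1 h).1
            exact Finset.mem_inter.2 ⟨hIS this.1, this.2⟩
          · obtain ⟨a, ha, rfl⟩ := Finset.mem_image.1 h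
            exact (hL₁ a ha).1
        · have hmix : ∀ x ∈ (I ∩ C) \ Cov, ∀ a ∈ A, ¬ G.Adj x (L₁ a) := by
            intro x hx a ha hxa
            rw [Finset.mem_sdiff, Finset.mem_inter] at hx
            have hxC : x ∈ C := hx.1.2
            have h1 := (hL₁ a ha).1
            have h2 := (hadj x hxC _ (Finset.mem_inter.1 h1).2 hxa.ne).1 hxa
            have h3 : f x ≤ f (L₁ a) := by
              rcases h2 with h | h
              · exact h
              · exact (hL₁ a ha).2.2 x (Finset.mem_inter.2 ⟨hIS hx.1.1, hxC⟩) h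
            exact hx.2 (Finset.mem_filter.2 ⟨Finset.mem_inter.2 hx.1, a, ha, h3⟩)
          intro x hx y hy hxy hadjxy
          rw [Finset.mem_coe, Finset.mem_union] at hx hy
          rcases hx with hx | hx <;> rcases hy with hy | hy
          · have h1 := (Finset.mem_inter.1 (Finset.mem_sdiff.1 hx).1).1
            have h2 := (Finset.mem_inter.1 (Finset.mem_sdiff.1 hy).1).1
            exact hI h1 h2 hxy hadjxy
          · obtain ⟨a, ha, rfl⟩ := Finset.mem_image.1 hy
            exact hmix x hx a ha hadjxy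
          · obtain ⟨a, ha, rfl⟩ := Finset.mem_image.1 hx
            exact hmix y hy a ha hadjxy.symm
          · obtain ⟨a, ha, rfl⟩ := Finset.mem_image.1 hx
            obtain ⟨b, hb, rfl⟩ := Finset.mem_image.1 hy
            have hne : a ≠ b := fun h => hxy (by rw [h])
            have h1 := (hadj _ (Finset.mem_inter.1 (hL₁ a ha).1).2 _
              (Finset.mem_inter.1 (hL₁ b hb).1).2 hxy).1 hadjxy
            have h2 := (hLB a ha).2.1.trans (hL₁ a ha).2.1
            have h3 := (hLB b hb).2.1.trans (hL₁ b hb).2.1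
            refine hA ha hb hne ((hadj a (hAC ha) b (hAC hb) hne).2 ?_)
            rcases h1 with h | h
            · exact hchain _ _ _ (h2.trans h) h3
            · exact hchain _ _ _ h2 (h3.trans h)
      · simp only [hpI, decide_false, Bool.false_eq_true, if_false, add_zero]
        omega

/-- A colouring bounds the size by the largest independent set. -/
theorem card_le_mul {k w : ℕ} (hk : G.Colorable k) (S : Finset ι)
    (hw : ∀ J ⊆ S, G.IsIndepSet (J : Set ι) → J.card ≤ w) : S.card ≤ k * w := by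
  obtain ⟨c⟩ := hk
  rw [Finset.card_eq_sum_card_fiberwise (f := c) (t := Finset.univ) (fun _ _ => by simp)]
  refine (Finset.sum_le_card_nsmul _ _ w fun i _ => ?_).trans (by simp)
  refine hw _ (Finset.filter_subset _ _) fun x hx y hy hxy hadj => ?_
  rw [Finset.mem_coe, Finset.mem_filter] at hx hy
  exact c.valid hadj (hx.2.trans hy.2.symm)

/-- The number of the steps for a class of forest type. -/
theorem class_bound {k : ℕ} (hk : G.Colorable k) (p : Finset ι → Prop) [DecidablePred p]
    (hchain : ∀ u v w : α, u ≤ w → v ≤ w → u ≤ v ∨ v ≤ u)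
    (hadj : ∀ x ∈ C, ∀ y ∈ C, x ≠ y → (G.Adj x y ↔ f x ≤ f y ∨ f y ≤ f x))
    (S : Finset ι) (l : List (Finset ι)) (h : Ok G C p S l) : l.countP p ≤ 7 * k := by
  classical
  by_cases hc : l.countP p ≤ 2 * k
  · omega
  obtain ⟨l₁, l₂, rfl, hl₁⟩ := exists_split p l (2 * k) (by omega)
  obtain ⟨h1, h2⟩ := ok_append S l₁ l₂ h
  have h3 := countP_le_card _ _ h2
  -- a largest independent set of the remaining part of the class
  obtain ⟨A, hA, hmax⟩ := Finset.exists_max_image
    (((rem S l₁) ∩ C).powerset.filter fun J : Finset ι => G.IsIndepSet (J : Set ι)) Finset.card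
    ⟨∅, Finset.mem_filter.2 ⟨Finset.empty_mem_powerset _, by simp⟩⟩
  rw [Finset.mem_filter, Finset.mem_powerset] at hA
  have hw : ∀ J ⊆ (rem S l₁) ∩ C, G.IsIndepSet (J : Set ι) → J.card ≤ A.card := fun J hJ hJi =>
    hmax J (Finset.mem_filter.2 ⟨Finset.mem_powerset.2 hJ, hJi⟩)
  have h4 := card_le_mul hk _ hw
  have hAC : A ⊆ C := hA.1.trans Finset.inter_subset_right
  have hAr : A ⊆ rem S l₁ := hA.1.trans Finset.inter_subset_left
  obtain ⟨L, B, hLB, hcount⟩ := track p hchain hadj hAC hA.2 l₁ S hAr h1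
  have hB : ∀ a ∈ A, (B a).card + 1 ≤ k := by
    intro a ha
    obtain ⟨_, h5, _, h6, h7⟩ := hLB a ha
    have hna : a ∉ B a := fun h => by
      have := h6 h
      rw [Finset.mem_inter, Finset.mem_sdiff] at this
      exact this.1.2 (hAr ha)
    have hcl : G.IsClique ((insert a (B a) : Finset ι) : Set ι) := by
      intro x hx y hy hxy
      have key : ∀ x ∈ insert a (B a), x ∈ C ∧ f x ≤ f (L a) := by
        intro x hx
        rcases Finset.mem_insert.1 hx with rfl | hx
        · exact ⟨hAC ha, h5⟩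
        · exact ⟨(Finset.mem_inter.1 (h6 hx)).2, h7 x hx⟩
      have hx' := key x hx
      have hy' := key y hy
      exact (hadj x hx'.1 y hy'.1 hxy).2 (hchain _ _ _ hx'.2 hy'.2)
    have := hcl.card_le_of_colorable hk
    rwa [Finset.card_insert_of_notMem hna] at this
  have hsum : ∑ a ∈ A, (B a).card + A.card ≤ k * A.card := by
    have h8 : ∑ a ∈ A, ((B a).card + 1) ≤ A.card • k := Finset.sum_le_card_nsmul _ _ _ hB
    rw [Finset.sum_add_distrib, Finset.sum_const, smul_eq_mul, mul_one, smul_eq_mul] at h8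
    rw [mul_comm k]
    exact h8
  rw [hl₁] at hcount
  have hw5 : A.card ≤ 5 := by
    by_contra hlt
    push Not at hlt
    nlinarith
  have h9 : k * A.card ≤ k * 5 := Nat.mul_le_mul_left _ hw5
  rw [List.countP_append, hl₁]
  omega

end

end Pool.Agent.Q227.GM
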