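import Pool.Agent.Q227.GM.Req
import Pool.Agent.Q227.GM.Run

/-!
# Greedy colouring of interference graphs: the bound
-/

set_option autoImplicit false

namespace Pool.Agent.Q227.GM

open SimpleGraph

variable {V ι : Type} {T : SimpleGraph V} [DecidableEq ι] [Fintype ι]

/-- The tree with its order, as a preordered type. -/
def TV (_hT : T.IsTree) (_o : V) : Type := V

instance (hT : T.IsTree) (o : V) : Preorder (TV hT o) where
  le u v := Le hT o u v
  le_refl u := Le.refl hT o u
  le_trans _ _ _ h1 h2 := Le.trans h1 h2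

theorem indep_of_run {G : SimpleGraph ι} {S : Finset ι} {I : Finset ι} {l : List (Finset ι)}
    (h : Run G S l) (hI : I ∈ l) : G.IsIndepSet (I : Set ι) ∧ I.Nonempty := by
  induction l generalizing S with
  | nil => simp at hI
  | cons J l ih =>
    obtain ⟨h1, h2, h3, h4, h5⟩ := h
    rcases List.mem_cons.1 hI with rfl | hI
    · refine ⟨h3, ?_⟩
      obtain ⟨x, hx⟩ := h1
      have := h4 {x} (by simpa using hx) (by simp)
      rw [Finset.card_singleton] at this
      exact Finset.card_pos.1 (by omega)
    · exact ih h5 hI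

theorem ok_of_run {G : SimpleGraph ι} {C : Finset ι} {p : Finset ι → Prop}
    (hp : ∀ I : Finset ι, G.IsIndepSet (I : Set ι) → p I → (I ∩ C).Nonempty ∧
      I.card ≤ (I ∩ C).card + 3) :
    ∀ (S : Finset ι) (l : List (Finset ι)), Run G S l → Ok G C p S l
  | _, [], _ => trivial
  | S, I :: l, h => by
    obtain ⟨h1, h2, h3, h4, h5⟩ := h
    refine ⟨h2, h3, fun hpI => ⟨(hp I h3 hpI).1, fun J hJ hJi => ?_⟩, ok_of_run hp _ l h5⟩
    exact (h4 J (hJ.trans Finset.inter_subset_left) hJi).trans (hp I h3 hpI).2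

theorem countP_le_card_run {G : SimpleGraph ι} {C : Finset ι} {p : Finset ι → Prop}
    [DecidablePred p] (hp : ∀ I : Finset ι, p I → (I ∩ C).Nonempty) :
    ∀ (S : Finset ι) (l : List (Finset ι)), Run G S l → l.countP p ≤ (S ∩ C).card
  | _, [], _ => by simp
  | S, I :: l, h => by
    obtain ⟨_, h1, _, _, h4⟩ := h
    have ih := countP_le_card_run hp (S \ I) l h4
    have hsub : (S \ I) ∩ C ⊆ S ∩ C := Finset.inter_subset_inter_right Finset.sdiff_subset
    rw [List.countP_cons]
    by_cases hpI : p I
    · obtain ⟨x, hx⟩ := hp I hpI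
      rw [Finset.mem_inter] at hx
      have : ((S \ I) ∩ C).card < (S ∩ C).card := by
        refine Finset.card_lt_card (Finset.ssubset_iff_subset_ne.2 ⟨hsub, fun heq => ?_⟩)
        have hx' : x ∈ S ∩ C := Finset.mem_inter.2 ⟨h1 hx.1, hx.2⟩
        rw [← heq, Finset.mem_inter, Finset.mem_sdiff] at hx'
        exact hx'.1.2 hx.1
      simp only [hpI, decide_true, if_true]
      omega
    · simp only [hpI, decide_false]
      have := Finset.card_le_card hsub
      simp only [Bool.false_eq_true, if_false, add_zero]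
      omega

theorem length_le_countP {β : Type} (p q r : β → Prop) [DecidablePred p] [DecidablePred q]
    [DecidablePred r] (l : List β) (h : ∀ x ∈ l, p x ∨ q x ∨ r x) :
    l.length ≤ l.countP p + l.countP q + l.countP r := by
  induction l with
  | nil => simp
  | cons a l ih =>
    have ih' := ih fun x hx => h x (List.mem_cons_of_mem _ hx)
    rw [List.length_cons, List.countP_cons, List.countP_cons, List.countP_cons]
    rcases h a (by simp) with h | h | h
    all_goals
      simp only [h, decide_true, if_true]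
      omega

/-- Every run of greedy MIS colouring on the interference graph of a family of requests in a
bidirected tree uses at most `16 k` colours if the graph is `k`-colourable. -/
theorem greedy_bound (hT : T.IsTree) (R : Requests T ι) {k : ℕ} (hk : R.graph.Colorable k)
    {S : Finset ι} {n : ℕ} (h : GreedyRun R.graph S n) : n ≤ 16 * k := by
  classical
  obtain ⟨l, rfl, hl⟩ := exists_run h
  obtain ⟨o⟩ : Nonempty V := hT.connected.nonempty
  set G := R.graph with hG
  set D : Finset ι := Finset.univ.filter (fun r => IsD R hT o r) with hD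
  set U : Finset ι := Finset.univ.filter (fun r => IsU R hT o r) with hU
  set E : Finset ι := Finset.univ.filter (fun r => ¬ IsD R hT o r ∧ ¬ IsU R hT o r) with hE
  have memD : ∀ {r}, r ∈ D ↔ IsD R hT o r := by simp [hD]
  have memU : ∀ {r}, r ∈ U ↔ IsU R hT o r := by simp [hU]
  have memE : ∀ {r}, r ∈ E ↔ ¬ IsD R hT o r ∧ ¬ IsU R hT o r := by simp [hE]
  -- sizes in independent sets
  have hcard : ∀ I : Finset ι, I.card ≤ (I ∩ D).card + (I ∩ U).card + (I ∩ E).card := by
    intro I
    have h1 : I ⊆ (I ∩ D) ∪ (I ∩ U) ∪ (I ∩ E) := by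
      intro r hr
      rw [Finset.mem_union, Finset.mem_union, Finset.mem_inter, Finset.mem_inter,
        Finset.mem_inter, memD, memU, memE]
      tauto
    exact (Finset.card_le_card h1).trans ((Finset.card_union_le _ _).trans
      (Nat.add_le_add_right (Finset.card_union_le _ _) _))
  have hE2 : ∀ I : Finset ι, G.IsIndepSet (I : Set ι) → (I ∩ E).card ≤ 2 := by
    intro I hI
    by_contra hlt
    push Not at hlt
    obtain ⟨a, b, c, ha, hb, hc, hab, hac, hbc⟩ := Finset.two_lt_card_iff.1 hlt
    rw [Finset.mem_inter, memE] at ha hb hc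
    exact no_three R hT o hab hac hbc ha.2.1 ha.2.2 hb.2.1 hb.2.2 hc.2.1 hc.2.2
      (hI ha.1 hb.1 hab) (hI ha.1 hc.1 hac) (hI hb.1 hc.1 hbc)
  have hDU : ∀ I : Finset ι, G.IsIndepSet (I : Set ι) → (I ∩ D).card ≤ 1 ∨ (I ∩ U).card ≤ 1 := by
    intro I hI
    by_contra hlt
    push Not at hlt
    obtain ⟨a, b, ha, hb, hab⟩ := Finset.one_lt_card_iff.1 hlt.1
    obtain ⟨c, d, hc, hd, hcd⟩ := Finset.one_lt_card_iff.1 hlt.2
    rw [Finset.mem_inter, memD] at ha hb
    rw [Finset.mem_inter, memU] at hc hd
    have hne : ∀ {x y : ι}, IsU R hT o x → IsD R hT o y → x ≠ y := by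
      rintro x y h1 h2 rfl
      exact not_isU R hT o h2 h1
    exact no_two_two R hT o hab hcd ha.2 hb.2 hc.2 hd.2 (hI ha.1 hb.1 hab) (hI hc.1 hd.1 hcd)
      (hI hc.1 ha.1 (hne hc.2 ha.2)) (hI hd.1 ha.1 (hne hd.2 ha.2))
      (hI hc.1 hb.1 (hne hc.2 hb.2)) (hI hd.1 hb.1 (hne hd.2 hb.2))
  -- the three kinds of steps
  set pD : Finset ι → Prop := fun I => (I ∩ D).Nonempty ∧ (I ∩ U).card ≤ (I ∩ D).card with hpD
  set pU : Finset ι → Prop := fun I => (I ∩ U).Nonempty ∧ (I ∩ D).card ≤ (I ∩ U).card with hpU
  set pE : Finset ι → Prop := fun I => (I ∩ E).Nonempty with hpE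
  have h1 : l.countP pD ≤ 7 * k := by
    refine class_bound (α := TV hT o) (f := fun r => R.sp r) (C := D) hk pD
      (fun u v w h1 h2 => Le.chain h1 h2) (fun x hx y hy hxy => ?_) S l
      (ok_of_run (fun I hI hpI => ⟨hpI.1, ?_⟩) S l hl)
    · exact adj_dd R hT o hxy (memD.1 hx) (memD.1 hy)
    · have := hcard I
      have := hE2 I hI
      have := hDU I hI
      have := hpI.2
      have := Finset.card_pos.2 hpI.1
      omega
  have h2 : l.countP pU ≤ 7 * k := by
    refine class_bound (α := TV hT o) (f := fun r => R.tp r) (C := U) hk pU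
      (fun u v w h1 h2 => Le.chain h1 h2) (fun x hx y hy hxy => ?_) S l
      (ok_of_run (fun I hI hpI => ⟨hpI.1, ?_⟩) S l hl)
    · exact adj_uu R hT o hxy (memU.1 hx) (memU.1 hy)
    · have := hcard I
      have := hE2 I hI
      have := hDU I hI
      have := hpI.2
      have := Finset.card_pos.2 hpI.1
      omega
  have h3 : l.countP pE ≤ 2 * k := by
    have h4 : l.countP pE ≤ (S ∩ E).card := countP_le_card_run (fun I hpI => hpI) S l hl
    have h5 : E.card ≤ k * 2 := card_le_mul hk E fun J hJ hJi => by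
      have := hE2 J hJi
      rwa [Finset.inter_eq_left.2 hJ] at this
    have h6 : (S ∩ E).card ≤ E.card := Finset.card_le_card Finset.inter_subset_right
    omega
  have h4 := length_le_countP pD pU pE l fun I hI => by
    obtain ⟨hi, hne⟩ := indep_of_run hl hI
    have hcI := hcard I
    have hpos := Finset.card_pos.2 hne
    by_cases h5 : (I ∩ E).Nonempty
    · exact Or.inr (Or.inr h5)
    · rw [Finset.not_nonempty_iff_eq_empty] at h5
      rw [h5, Finset.card_empty] at hcI
      rcases le_total (I ∩ U).card (I ∩ D).card with h6 | h6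
      · exact Or.inl ⟨Finset.card_pos.1 (by omega), h6⟩
      · exact Or.inr (Or.inl ⟨Finset.card_pos.1 (by omega), h6⟩)
  omega

end Pool.Agent.Q227.GM
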