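import Pool.Agent.Q227.GM.Tree

/-!
# Requests in bidirected trees and their interference graphs
-/

set_option autoImplicit false

namespace Pool.Agent.Q227.GM

open SimpleGraph

/-- A family of requests in the bidirected tree `T`, indexed by `ι`: directed paths with at least
one arc. Different requests may follow the same path. -/
structure Requests {V : Type} (T : SimpleGraph V) (ι : Type) where
  /-- the first vertex of a request -/
  src : ι → V
  /-- the last vertex of a request -/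
  tgt : ι → V
  /-- the path of a request -/
  path : ∀ r, T.Walk (src r) (tgt r)
  /-- it is a path -/
  isPath : ∀ r, (path r).IsPath
  /-- it has at least one arc -/
  not_nil : ∀ r, ¬ (path r).Nil

variable {V ι : Type} {T : SimpleGraph V}

/-- The request `r` interferes on `r'`: the path from the first vertex of `r` to the last vertex of
`r'` has the same first arc as `r` and the same last arc as `r'`. -/
def Requests.Interferes (R : Requests T ι) (r r' : ι) : Prop :=
  ∃ q : T.Walk (R.src r) (R.tgt r'), q.IsPath ∧ ¬ q.Nil ∧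
    q.snd = (R.path r).snd ∧ q.penultimate = (R.path r').penultimate

/-- The interference graph. -/
def Requests.graph (R : Requests T ι) : SimpleGraph ι where
  Adj r r' := r ≠ r' ∧ (R.Interferes r r' ∨ R.Interferes r' r)
  symm := ⟨fun _ _ h => ⟨h.1.symm, h.2.symm⟩⟩
  loopless := ⟨fun _ h => h.1 rfl⟩

section

variable (R : Requests T ι) (hT : T.IsTree) (o : V)

/-- The second vertex. -/
abbrev Requests.sp (r : ι) : V := (R.path r).snd

/-- The penultimate vertex. -/
abbrev Requests.tp (r : ι) : V := (R.path r).penultimate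

/-- The emission arc leads downwards. -/
def IsD (r : ι) : Prop := Child hT o (R.src r) (R.sp r)

/-- The reception arc leads upwards. -/
def IsU (r : ι) : Prop := Child hT o (R.tgt r) (R.tp r)

include hT in
theorem interferes_iff (r r' : ι) : R.Interferes r r' ↔
    Fst T (R.src r) (R.sp r) (R.tgt r') ∧ Fst T (R.tgt r') (R.tp r') (R.src r) :=
  fst_reverse hT

theorem adj_sp (r : ι) : T.Adj (R.src r) (R.sp r) := (R.path r).adj_snd (R.not_nil r)

theorem adj_tp (r : ι) : T.Adj (R.tgt r) (R.tp r) :=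
  ((R.path r).adj_penultimate (R.not_nil r)).symm

theorem child_asymm {a b : V} (h : Child hT o a b) : ¬ Child hT o b a := fun h2 =>
  h.not_le h2.le

theorem sp_iff (r : ι) (y : V) : Fst T (R.src r) (R.sp r) y ↔
    (IsD R hT o r ∧ Le hT o (R.sp r) y) ∨ (¬ IsD R hT o r ∧ ¬ Le hT o (R.src r) y) := by
  rw [fst_iff hT o (adj_sp R r)]
  unfold IsD
  constructor
  · rintro (h | ⟨h1, h2⟩)
    · exact Or.inl h
    · exact Or.inr ⟨child_asymm hT o h1, h2⟩
  · rintro (h | ⟨h1, h2⟩)
    · exact Or.inl h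
    · exact Or.inr ⟨(child_of_adj hT o (adj_sp R r)).resolve_left h1, h2⟩

theorem tp_iff (r : ι) (x : V) : Fst T (R.tgt r) (R.tp r) x ↔
    (IsU R hT o r ∧ Le hT o (R.tp r) x) ∨ (¬ IsU R hT o r ∧ ¬ Le hT o (R.tgt r) x) := by
  rw [fst_iff hT o (adj_tp R r)]
  unfold IsU
  constructor
  · rintro (h | ⟨h1, h2⟩)
    · exact Or.inl h
    · exact Or.inr ⟨child_asymm hT o h1, h2⟩
  · rintro (h | ⟨h1, h2⟩)
    · exact Or.inl h
    · exact Or.inr ⟨(child_of_adj hT o (adj_tp R r)).resolve_left h1, h2⟩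

theorem own1 (r : ι) : Fst T (R.src r) (R.sp r) (R.tgt r) :=
  ⟨R.path r, R.isPath r, R.not_nil r, rfl⟩

theorem own2 (r : ι) : Fst T (R.tgt r) (R.tp r) (R.src r) :=
  ⟨(R.path r).reverse, (R.isPath r).reverse, by simpa using R.not_nil r, by simp [Requests.tp]⟩

theorem isD_le {r : ι} (h : IsD R hT o r) : Le hT o (R.sp r) (R.tgt r) := by
  rcases (sp_iff R hT o r _).1 (own1 R r) with h1 | h1
  · exact h1.2
  · exact absurd h h1.1

theorem isU_le {r : ι} (h : IsU R hT o r) : Le hT o (R.tp r) (R.src r) := by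
  rcases (tp_iff R hT o r _).1 (own2 R r) with h1 | h1
  · exact h1.2
  · exact absurd h h1.1

theorem not_isU {r : ι} (h : IsD R hT o r) : ¬ IsU R hT o r := fun h2 =>
  h.not_le ((isD_le R hT o h).trans (h2.le.trans (isU_le R hT o h2)))

theorem not_isD {r : ι} (h : IsU R hT o r) : ¬ IsD R hT o r := fun h2 => not_isU R hT o h2 h

theorem not_le_st {r : ι} (h : ¬ IsD R hT o r) : ¬ Le hT o (R.src r) (R.tgt r) := by
  rcases (sp_iff R hT o r _).1 (own1 R r) with h1 | h1
  · exact absurd h1.1 h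
  · exact h1.2

theorem not_le_ts {r : ι} (h : ¬ IsU R hT o r) : ¬ Le hT o (R.tgt r) (R.src r) := by
  rcases (tp_iff R hT o r _).1 (own2 R r) with h1 | h1
  · exact absurd h1.1 h
  · exact h1.2

theorem dd_aux {r r' : ι} (h : IsD R hT o r) (h' : IsD R hT o r') :
    (R.Interferes r r' → Le hT o (R.sp r) (R.sp r') ∨ Le hT o (R.sp r') (R.sp r)) ∧
    (Le hT o (R.sp r) (R.sp r') → R.Interferes r r') := by
  constructor
  · intro hi
    have h1 := ((interferes_iff R hT r r').1 hi).1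
    rcases (sp_iff R hT o r _).1 h1 with h2 | h2
    · exact Le.chain h2.2 (isD_le R hT o h')
    · exact absurd h h2.1
  · intro hle
    have h1 : Le hT o (R.sp r) (R.tgt r') := hle.trans (isD_le R hT o h')
    rw [interferes_iff R hT]
    refine ⟨(sp_iff R hT o r _).2 (Or.inl ⟨h, h1⟩), (tp_iff R hT o r' _).2 (Or.inr
      ⟨not_isU R hT o h', fun h2 => ?_⟩)⟩
    exact h.not_le (h1.trans h2)

theorem adj_dd {r r' : ι} (hne : r ≠ r') (h : IsD R hT o r) (h' : IsD R hT o r') :
    R.graph.Adj r r' ↔ Le hT o (R.sp r) (R.sp r') ∨ Le hT o (R.sp r') (R.sp r) := by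
  constructor
  · rintro ⟨_, h1 | h1⟩
    · exact (dd_aux R hT o h h').1 h1
    · exact ((dd_aux R hT o h' h).1 h1).symm
  · rintro (h1 | h1)
    · exact ⟨hne, Or.inl ((dd_aux R hT o h h').2 h1)⟩
    · exact ⟨hne, Or.inr ((dd_aux R hT o h' h).2 h1)⟩

theorem uu_aux {r r' : ι} (h : IsU R hT o r) (h' : IsU R hT o r') :
    (R.Interferes r r' → Le hT o (R.tp r) (R.tp r') ∨ Le hT o (R.tp r') (R.tp r)) ∧
    (Le hT o (R.tp r') (R.tp r) → R.Interferes r r') := by
  constructor
  · intro hi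
    have h1 := ((interferes_iff R hT r r').1 hi).2
    rcases (tp_iff R hT o r' _).1 h1 with h2 | h2
    · exact Le.chain (isU_le R hT o h) h2.2
    · exact absurd h' h2.1
  · intro hle
    have h1 : Le hT o (R.tp r') (R.src r) := hle.trans (isU_le R hT o h)
    rw [interferes_iff R hT]
    refine ⟨(sp_iff R hT o r _).2 (Or.inr ⟨not_isD R hT o h, fun h2 => ?_⟩),
      (tp_iff R hT o r' _).2 (Or.inl ⟨h', h1⟩)⟩
    exact h'.not_le (h1.trans h2)

theorem adj_uu {r r' : ι} (hne : r ≠ r') (h : IsU R hT o r) (h' : IsU R hT o r') :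
    R.graph.Adj r r' ↔ Le hT o (R.tp r) (R.tp r') ∨ Le hT o (R.tp r') (R.tp r) := by
  constructor
  · rintro ⟨_, h1 | h1⟩
    · exact (uu_aux R hT o h h').1 h1
    · exact ((uu_aux R hT o h' h).1 h1).symm
  · rintro (h1 | h1)
    · exact ⟨hne, Or.inr ((uu_aux R hT o h' h).2 h1)⟩
    · exact ⟨hne, Or.inl ((uu_aux R hT o h h').2 h1)⟩

/-- Comparability. -/
def Cmp (u v : V) : Prop := Le hT o u v ∨ Le hT o v u

theorem cmp_of_upper {u v w : V} (h : Le hT o u w) (h' : Le hT o v w) : Cmp hT o u v :=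
  Le.chain h h'

/-- If `t` is comparable with two incomparable vertices, it is an ancestor of both. -/
theorem le_of_cmp {t s₁ s₂ : V} (h1 : Cmp hT o t s₁) (h2 : Cmp hT o t s₂)
    (h : ¬ Cmp hT o s₁ s₂) : Le hT o t s₁ := by
  rcases h1 with h1 | h1
  · exact h1
  · exfalso
    rcases h2 with h2 | h2
    · exact h (Or.inl (h1.trans h2))
    · exact h (cmp_of_upper hT o h1 h2)

theorem four_aux {t₁ t₂ s₁ s₂ : V} (h11 : Cmp hT o t₁ s₁) (h12 : Cmp hT o t₁ s₂)
    (h21 : Cmp hT o t₂ s₁) (h22 : Cmp hT o t₂ s₂) (hs : ¬ Cmp hT o s₁ s₂) : Cmp hT o t₁ t₂ :=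
  cmp_of_upper hT o (le_of_cmp hT o h11 h12 hs) (le_of_cmp hT o h21 h22 hs)

theorem cmp_of_not_adj {r r' : ι} (hne : r ≠ r') (h : ¬ IsU R hT o r) (h' : ¬ IsD R hT o r')
    (hna : ¬ R.graph.Adj r' r) : Cmp hT o (R.tgt r) (R.src r') := by
  by_contra hc
  unfold Cmp at hc
  push Not at hc
  refine hna ⟨hne.symm, Or.inl ?_⟩
  rw [interferes_iff R hT]
  exact ⟨(sp_iff R hT o r' _).2 (Or.inr ⟨h', hc.2⟩), (tp_iff R hT o r _).2 (Or.inr ⟨h, hc.1⟩)⟩

/-- There are no two `D`-requests and two `U`-requests in an independent set. -/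
theorem no_two_two {a b c d : ι} (hab : a ≠ b) (hcd : c ≠ d) (ha : IsD R hT o a)
    (hb : IsD R hT o b) (hc : IsU R hT o c) (hd : IsU R hT o d) (hI1 : ¬ R.graph.Adj a b)
    (hI2 : ¬ R.graph.Adj c d) (h1 : ¬ R.graph.Adj c a) (h2 : ¬ R.graph.Adj d a)
    (h3 : ¬ R.graph.Adj c b) (h4 : ¬ R.graph.Adj d b) : False := by
  have hne : ∀ {r r' : ι}, IsD R hT o r → IsU R hT o r' → r ≠ r' := by
    rintro r r' h1 h2 rfl
    exact not_isU R hT o h1 h2
  have key : ∀ {r r' : ι}, IsD R hT o r → IsU R hT o r' → ¬ R.graph.Adj r' r →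
      Cmp hT o (R.tgt r) (R.src r') := fun h1 h2 h3 =>
    cmp_of_not_adj R hT o (hne h1 h2) (not_isU R hT o h1) (not_isD R hT o h2) h3
  rw [adj_dd R hT o hab ha hb] at hI1
  rw [adj_uu R hT o hcd hc hd] at hI2
  have hs : ¬ Cmp hT o (R.src c) (R.src d) := by
    rintro (h | h)
    · exact hI2 (Le.chain ((isU_le R hT o hc).trans h) (isU_le R hT o hd))
    · exact hI2 (Le.chain (isU_le R hT o hc) ((isU_le R hT o hd).trans h))
  have ht : ¬ Cmp hT o (R.tgt a) (R.tgt b) := by
    rintro (h | h)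
    · exact hI1 (Le.chain ((isD_le R hT o ha).trans h) (isD_le R hT o hb))
    · exact hI1 (Le.chain (isD_le R hT o ha) ((isD_le R hT o hb).trans h))
  exact ht (four_aux hT o (key ha hc h1) (key ha hd h2) (key hb hc h3) (key hb hd h4) hs)

/-- There are no three requests which are neither `D`-requests nor `U`-requests in an independent
set. -/
theorem no_three {a b c : ι} (hab : a ≠ b) (hac : a ≠ c) (hbc : b ≠ c) (ha : ¬ IsD R hT o a)
    (ha' : ¬ IsU R hT o a) (hb : ¬ IsD R hT o b) (hb' : ¬ IsU R hT o b) (hc : ¬ IsD R hT o c)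
    (hc' : ¬ IsU R hT o c) (h1 : ¬ R.graph.Adj a b) (h2 : ¬ R.graph.Adj a c)
    (h3 : ¬ R.graph.Adj b c) : False := by
  have own : ∀ {r : ι}, ¬ IsD R hT o r → ¬ IsU R hT o r → ¬ Cmp hT o (R.src r) (R.tgt r) := by
    rintro r h1 h2 (h3 | h3)
    · exact not_le_st R hT o h1 h3
    · exact not_le_ts R hT o h2 h3
  have key : ∀ {r r' : ι}, r ≠ r' → ¬ IsU R hT o r → ¬ IsD R hT o r' → ¬ R.graph.Adj r r' →
      Cmp hT o (R.tgt r) (R.src r') := fun hne h1 h2 h3 =>
    cmp_of_not_adj R hT o hne h1 h2 fun h4 => h3 h4.symm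
  have ks : ∀ {r r' : ι}, r ≠ r' → ¬ IsD R hT o r → ¬ IsU R hT o r → ¬ IsD R hT o r' →
      ¬ R.graph.Adj r r' → ¬ Le hT o (R.src r) (R.src r') := by
    intro r r' hne h1 h2 h3 h4 h5
    rcases key hne h2 h3 h4 with h | h
    · exact own h1 h2 (cmp_of_upper hT o h5 h)
    · exact own h1 h2 (Or.inl (h5.trans h))
  have kt : ∀ {r r' : ι}, r ≠ r' → ¬ IsD R hT o r → ¬ IsU R hT o r → ¬ IsU R hT o r' →
      ¬ R.graph.Adj r r' → ¬ Le hT o (R.tgt r) (R.tgt r') := by
    intro r r' hne h1 h2 h3 h4 h5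
    rcases key hne.symm h3 h1 (fun h => h4 h.symm) with h | h
    · exact own h1 h2 (Or.inr (h5.trans h))
    · exact own h1 h2 (cmp_of_upper hT o h h5)
  have h1' : ¬ R.graph.Adj b a := fun h => h1 h.symm
  have h2' : ¬ R.graph.Adj c a := fun h => h2 h.symm
  have h3' : ¬ R.graph.Adj c b := fun h => h3 h.symm
  have e1 : Le hT o (R.tgt c) (R.src a) :=
    le_of_cmp hT o (key hac.symm hc' ha h2') (key hbc.symm hc' hb h3') (by
      rintro (h | h)
      · exact ks hab ha ha' hb h1 h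
      · exact ks hab.symm hb hb' ha h1' h)
  have e2 : Le hT o (R.tgt b) (R.src a) :=
    le_of_cmp hT o (key hab.symm hb' ha h1') (key hbc hb' hc h3) (by
      rintro (h | h)
      · exact ks hac ha ha' hc h2 h
      · exact ks hac.symm hc hc' ha h2' h)
  rcases cmp_of_upper hT o e1 e2 with h | h
  · exact kt hbc.symm hc hc' hb' h3' h
  · exact kt hbc hb hb' hc' h3 h

end

end Pool.Agent.Q227.GM
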