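import Mathlib

/-!
# Rooted trees: ancestors, and first arcs of paths
-/

set_option autoImplicit false

namespace Pool.Agent.Q227.GM

open SimpleGraph

variable {V : Type} {T : SimpleGraph V}

/-- The path from the root. -/
noncomputable def rp (hT : T.IsTree) (o v : V) : T.Walk o v := (hT.existsUnique_path o v).choose

theorem rp_isPath (hT : T.IsTree) (o v : V) : (rp hT o v).IsPath :=
  (hT.existsUnique_path o v).choose_spec.1

theorem path_unique (hT : T.IsTree) {u v : V} {p q : T.Walk u v} (hp : p.IsPath) (hq : q.IsPath) :
    p = q := (hT.existsUnique_path u v).unique hp hq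

/-- The list of the ancestors of a vertex, from the root to the vertex. -/
noncomputable def anc (hT : T.IsTree) (o v : V) : List V := (rp hT o v).support

theorem anc_nodup (hT : T.IsTree) (o v : V) : (anc hT o v).Nodup := (rp_isPath hT o v).support_nodup

theorem anc_ne (hT : T.IsTree) (o v : V) : anc hT o v ≠ [] := (rp hT o v).support_ne_nil

theorem anc_getLast (hT : T.IsTree) (o v : V) : (anc hT o v).getLast (anc_ne hT o v) = v :=
  (rp hT o v).getLast_support

theorem self_mem_anc (hT : T.IsTree) (o v : V) : v ∈ anc hT o v := (rp hT o v).end_mem_support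

theorem anc_inj (hT : T.IsTree) {o u v : V} (h : anc hT o u = anc hT o v) : u = v := by
  rw [← anc_getLast hT o u, ← anc_getLast hT o v]
  congr 1

/-- The order of the rooted tree. -/
def Le (hT : T.IsTree) (o u v : V) : Prop := anc hT o u <+: anc hT o v

theorem Le.refl (hT : T.IsTree) (o u : V) : Le hT o u u := List.prefix_rfl

theorem Le.trans {hT : T.IsTree} {o u v w : V} (h1 : Le hT o u v) (h2 : Le hT o v w) :
    Le hT o u w := List.IsPrefix.trans h1 h2

theorem Le.antisymm {hT : T.IsTree} {o u v : V} (h1 : Le hT o u v) (h2 : Le hT o v u) :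
    u = v := anc_inj hT (List.IsPrefix.eq_of_length h1 (le_antisymm h1.length_le h2.length_le))

theorem Le.chain {hT : T.IsTree} {o u v w : V} (h1 : Le hT o u w) (h2 : Le hT o v w) :
    Le hT o u v ∨ Le hT o v u := List.prefix_or_prefix_of_prefix h1 h2

/-- `b` is a child of `a`. -/
def Child (hT : T.IsTree) (o a b : V) : Prop := anc hT o b = anc hT o a ++ [b]

theorem Child.le {hT : T.IsTree} {o a b : V} (h : Child hT o a b) : Le hT o a b := by
  unfold Le
  rw [h]
  exact List.prefix_append _ _

theorem Child.not_le {hT : T.IsTree} {o a b : V} (h : Child hT o a b) : ¬ Le hT o b a := by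
  intro h2
  have := h2.length_le
  rw [h, List.length_append] at this
  simp at this

theorem Child.parent_unique {hT : T.IsTree} {o a a' b : V} (h : Child hT o a b)
    (h' : Child hT o a' b) : a = a' := by
  unfold Child at h h'
  rw [h] at h'
  exact anc_inj hT (List.append_cancel_right h')

theorem child_of_adj (hT : T.IsTree) (o : V) {a b : V} (h : T.Adj a b) :
    Child hT o a b ∨ Child hT o b a := by
  classical
  by_cases hb : b ∈ (rp hT o a).support
  · right
    have h1 : (rp hT o a).takeUntil b hb = rp hT o b :=
      path_unique hT ((rp_isPath hT o a).takeUntil hb) (rp_isPath hT o b)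
    have h2 : (rp hT o a).dropUntil b hb = Walk.cons h.symm Walk.nil :=
      path_unique hT ((rp_isPath hT o a).dropUntil hb) (by simp [h.ne.symm])
    have h3 := (rp hT o a).take_spec hb
    unfold Child anc
    rw [← h3, h1, h2, Walk.support_append]
    simp
  · left
    have h1 : ((rp hT o a).concat h).IsPath := (rp_isPath hT o a).concat hb h
    have h2 : (rp hT o a).concat h = rp hT o b := path_unique hT h1 (rp_isPath hT o b)
    unfold Child anc
    rw [← h2, Walk.support_concat]

theorem down_path (hT : T.IsTree) (o : V) {x y : V} (q : T.Walk x y) (hq : q.IsPath)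
    (hn : ¬ q.Nil) (hc : Child hT o x q.snd) : anc hT o y = anc hT o x ++ q.support.tail := by
  induction q with
  | nil => simp at hn
  | @cons x v y h q' ih =>
    rw [Walk.cons_isPath_iff] at hq
    rw [Walk.snd_cons] at hc
    rw [Walk.support_cons, List.tail_cons]
    by_cases hn' : q'.Nil
    · cases q' with
      | nil => exact hc
      | cons h' q'' => simp at hn'
    · rcases child_of_adj hT o (q'.adj_snd hn') with h1 | h1
      · rw [ih hq.1 hn' h1, hc, List.append_assoc, List.singleton_append, Walk.cons_tail_support]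
      · have h2 := Child.parent_unique hc h1
        refine absurd ?_ hq.2
        rw [h2]
        exact q'.getVert_mem_support 1

theorem up_path (hT : T.IsTree) (o : V) {x y : V} (q : T.Walk x y) (hq : q.IsPath)
    (hn : ¬ q.Nil) (hc : Child hT o q.snd x) : ¬ Le hT o x y := by
  classical
  intro hle
  have hx : x ∈ (rp hT o y).support := hle.subset (self_mem_anc hT o x)
  have h1 : (rp hT o y).takeUntil x hx = rp hT o x :=
    path_unique hT ((rp_isPath hT o y).takeUntil hx) (rp_isPath hT o x)
  have h2 : (rp hT o y).dropUntil x hx = q := path_unique hT ((rp_isPath hT o y).dropUntil hx) hq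
  have h3 := (rp hT o y).take_spec hx
  have h4 : anc hT o y = anc hT o x ++ q.support.tail := by
    unfold anc
    rw [← h3, h1, h2, Walk.support_append]
  have h5 := anc_nodup hT o y
  rw [h4, List.nodup_append'] at h5
  refine h5.2.2 (?_ : q.snd ∈ anc hT o x) ?_
  · rw [hc]
    exact List.mem_append_left _ (self_mem_anc hT o q.snd)
  · cases q with
    | nil => simp at hn
    | cons h q' =>
      rw [Walk.snd_cons, Walk.support_cons, List.tail_cons]
      exact q'.start_mem_support

/-- The path from `x` to `y` starts with the arc from `x` to `b`. -/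
def Fst (T : SimpleGraph V) (x b y : V) : Prop :=
  ∃ q : T.Walk x y, q.IsPath ∧ ¬ q.Nil ∧ q.snd = b

theorem snd_le (hT : T.IsTree) (o : V) {x y : V} (q : T.Walk x y) (hq : q.IsPath)
    (hn : ¬ q.Nil) (hc : Child hT o x q.snd) : Le hT o q.snd y := by
  have h := down_path hT o q hq hn hc
  unfold Le
  rw [h, hc]
  cases q with
  | nil => simp at hn
  | cons h q' =>
    rw [Walk.snd_cons, Walk.support_cons, List.tail_cons, ← Walk.cons_tail_support q',
      ← List.singleton_append (l := q'.support.tail), ← List.append_assoc]
    exact List.prefix_append _ _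

theorem fst_iff (hT : T.IsTree) (o : V) {x b y : V} (hxb : T.Adj x b) :
    Fst T x b y ↔ (Child hT o x b ∧ Le hT o b y) ∨ (Child hT o b x ∧ ¬ Le hT o x y) := by
  constructor
  · rintro ⟨q, hq, hn, rfl⟩
    rcases child_of_adj hT o hxb with h | h
    · exact Or.inl ⟨h, snd_le hT o q hq hn h⟩
    · exact Or.inr ⟨h, up_path hT o q hq hn h⟩
  · intro h
    obtain ⟨q, hq, _⟩ := hT.existsUnique_path x y
    have hn : ¬ q.Nil := by
      intro hn
      have hxy := hn.eq
      rcases h with ⟨h1, h2⟩ | ⟨_, h2⟩
      · rw [← hxy] at h2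
        exact h1.not_le h2
      · rw [hxy] at h2
        exact h2 (Le.refl hT o y)
    refine ⟨q, hq, hn, ?_⟩
    rcases child_of_adj hT o (q.adj_snd hn) with h3 | h3
    · have h4 := snd_le hT o q hq hn h3
      rcases h with ⟨h1, h2⟩ | ⟨h1, h2⟩
      · have h5 : anc hT o q.snd = anc hT o b := by
          refine List.IsPrefix.eq_of_length ?_ (by rw [h3, h1]; simp)
          exact List.prefix_of_prefix_length_le h4 h2 (by rw [h3, h1]; simp)
        exact anc_inj hT h5
      · exact absurd (h3.le.trans h4) h2
    · have h4 := up_path hT o q hq hn h3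
      rcases h with ⟨h1, h2⟩ | ⟨h1, h2⟩
      · exact absurd (h1.le.trans h2) h4
      · exact h3.parent_unique h1

/-- A path is determined by its end vertices, so its last arc can be read from the reversed path. -/
theorem fst_reverse (hT : T.IsTree) {x y b c : V} :
    (∃ q : T.Walk x y, q.IsPath ∧ ¬ q.Nil ∧ q.snd = b ∧ q.penultimate = c) ↔
      Fst T x b y ∧ Fst T y c x := by
  constructor
  · rintro ⟨q, hq, hn, h1, h2⟩
    refine ⟨⟨q, hq, hn, h1⟩, ⟨q.reverse, hq.reverse, by simpa using hn, ?_⟩⟩
    rw [Walk.snd_reverse]
    exact h2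
  · rintro ⟨⟨q, hq, hn, h1⟩, ⟨q', hq', hn', h2⟩⟩
    refine ⟨q, hq, hn, h1, ?_⟩
    have : q' = q.reverse := path_unique hT hq' hq.reverse
    rw [this, Walk.snd_reverse] at h2
    exact h2

end Pool.Agent.Q227.GM
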